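import Pool.Agent.Work.MP_0da4e0_ag.Lin.One

/-! MP_0da4e0_ag, span criterion: kernels of linear systems and extension of scalars; the spans of the
Hodge tensors. -/

open Matrix

namespace Pool.Agent.Work.MP_0da4e0_ag.Lin

/-- The solutions over an extension of a linear system with coefficients in a field are
combinations of solutions over the field. -/
theorem ker_bc {R S : Type} [Field R] [Field S] (f : R →+* S) {J M : Type} [Fintype J]
    (A : M → J → R) (y : J → S) (hy : ∀ r, ∑ j, f (A r j) * y j = 0) :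
    y ∈ Submodule.span S {z | ∃ x : J → R, (∀ r, ∑ j, A r j * x j = 0) ∧ z = fun j => f (x j)} := by
  classical
  let _ : Algebra R S := f.toAlgebra
  have hf : ∀ r, algebraMap R S r = f r := fun r => rfl
  let b := Module.Basis.ofVectorSpace R S
  let s : Finset (Module.Basis.ofVectorSpaceIndex R S) :=
    Finset.univ.biUnion fun j => (b.repr (y j)).support
  have h1 : ∀ j, y j = ∑ i ∈ s, f (b.repr (y j) i) * b i := by
    intro j
    have e1 := b.linearCombination_repr (y j)
    rw [Finsupp.linearCombination_apply] at e1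
    rw [← Finsupp.sum_of_support_subset (b.repr (y j)) (s := s) (fun i hi => by
      exact Finset.mem_biUnion.2 ⟨j, Finset.mem_univ _, hi⟩)
      (fun i c => f c * b i) (fun i _ => by rw [map_zero, zero_mul])]
    rw [← e1]
    simp only [e1]
    conv_lhs => rw [← e1]
    apply Finsupp.sum_congr
    intro i _
    rw [Algebra.smul_def, hf]
  have h2 : ∀ i ∈ s, ∀ r, ∑ j, A r j * b.repr (y j) i = 0 := by
    intro i hi r
    have e1 : ∑ i ∈ s, (∑ j, A r j * b.repr (y j) i) • b i = 0 := by
      rw [← hy r]
      simp only [Finset.sum_smul]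
      rw [Finset.sum_comm]
      apply Finset.sum_congr rfl
      intro j _
      conv_rhs => rw [h1 j]
      rw [Finset.mul_sum]
      apply Finset.sum_congr rfl
      intro i _
      rw [Algebra.smul_def, hf, map_mul, mul_assoc]
    exact linearIndependent_iff'.1 b.linearIndependent s _ e1 i hi
  have h3 : y = ∑ i ∈ s, b i • (fun j => f (b.repr (y j) i)) := by
    funext j
    rw [Finset.sum_apply, h1 j]
    apply Finset.sum_congr rfl
    intro i _
    rw [Pi.smul_apply, smul_eq_mul, mul_comm]
  rw [h3]
  refine Submodule.sum_mem _ fun i hi => Submodule.smul_mem _ _ (Submodule.subset_span ?_)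
  exact ⟨fun j => b.repr (y j) i, h2 i hi, rfl⟩

variable {ι : Type} [Fintype ι] [DecidableEq ι] {k : Type} [Field k]

omit [Fintype ι] in
theorem dmat_map {R S : Type} [CommRing R] [CommRing S] (f : R →+* S) {a b : ℕ}
    (X : Matrix ι ι R) (e e' : (Fin a → ι) × (Fin b → ι)) :
    f (dmat a b X e e') = dmat a b (X.map f) e e' := by
  simp only [dmat, map_sum, map_mul, map_sub, map_prod, Matrix.map_apply]
  have h1 : ∀ i j, f ((1 : Matrix ι ι R) i j) = (1 : Matrix ι ι S) i j := by
    intro i j
    rw [Matrix.one_apply, Matrix.one_apply]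
    split_ifs <;> simp
  simp only [h1]

/-- tensors killed by matrices over a smaller field are combinations of such tensors over the smaller
field -/
theorem dact_bc {R S : Type} [Field R] [Field S] (f : R →+* S) {a b : ℕ} (L : Set (Matrix ι ι R))
    (D : Tens ι a b S) (hD : ∀ Y ∈ L, dact (Y.map f) D = 0) :
    D ∈ Submodule.span S {w : Tens ι a b S | ∃ u : Tens ι a b R, (∀ Y ∈ L, dact Y u = 0) ∧
      w = fun e => f (u e)} := by
  have h1 := ker_bc f (M := L × ((Fin a → ι) × (Fin b → ι)))
    (fun r j => dmat a b r.1.1 r.2 j) D (fun r => by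
      have h2 := congrFun (hD r.1.1 r.1.2) r.2
      rw [Pi.zero_apply] at h2
      rw [← h2]
      simp only [dact, Matrix.mulVec, dotProduct]
      apply Finset.sum_congr rfl
      intro j _
      rw [dmat_map])
  refine Submodule.span_mono ?_ h1
  rintro _ ⟨u, hu, rfl⟩
  exact ⟨u, fun Y hY => funext fun e => hu (⟨Y, hY⟩, e), rfl⟩

/-- the `R`-linear span of the tensors `g x`, where `x` runs through the Hodge tensors of bidegree
`(a, b)` -/
def hodgeSpan (R : Type) [Field R] (g : GL ι R) (h : HodgeStr ι) (a b : ℕ) :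
    Submodule R (Tens ι a b R) :=
  Submodule.span R {y | ∃ x : Tens ι a b ℚ, IsHodge h x ∧ y = act g (ratT R x)}

/-- In every `l`-adic realization the `ℚ_l`-linear span of the Hodge tensors of bidegree `(a, b)` does
not depend on the embedding. -/
def EtSpan (H : RealSys k ι) (a b : ℕ) : Prop :=
  ∀ (l : ℕ) [Fact l.Prime] (σ τ : k →+* ℂ),
    hodgeSpan ℚ_[l] (H.et σ l) (H.hodge σ) a b = hodgeSpan ℚ_[l] (H.et τ l) (H.hodge τ) a b

/-- In the de Rham realization the complex span of the Hodge tensors of bidegree `(a, b)` is, for every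
embedding, the extension of scalars of one subspace over `k`. -/
def DRSpan (H : RealSys k ι) (a b : ℕ) : Prop :=
  ∃ L : Submodule k (Tens ι a b k), ∀ τ : k →+* ℂ,
    hodgeSpan ℂ (H.per τ) (H.hodge τ) a b = Submodule.span ℂ {y | ∃ x ∈ L, y = fun e => τ (x e)}

/-- a tensor killed by the Lie algebra is a combination of Hodge tensors -/
theorem mem_span_hodgeF {F : Type} [Field F] [CharZero F] {h : HodgeStr ι} {a b : ℕ}
    {D : Tens ι a b F} (hD : ∀ X ∈ mtLie h, dact (X.map (Rat.castHom F)) D = 0) :
    D ∈ Submodule.span F {w : Tens ι a b F | ∃ u : Tens ι a b ℚ, IsHodge h u ∧ w = ratT F u} := by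
  have h1 := dact_bc (Rat.castHom F) (mtLie h : Set (Matrix ι ι ℚ)) D hD
  refine Submodule.span_mono ?_ h1
  rintro _ ⟨u, hu, rfl⟩
  exact ⟨u, isHodge_of_lie hu, rfl⟩

/-- the action of `g` as a linear map -/
def actL {R : Type} [CommRing R] (g : GL ι R) (a b : ℕ) : Tens ι a b R →ₗ[R] Tens ι a b R where
  toFun := act g
  map_add' := act_add g
  map_smul' c x := act_smul g c x

theorem hodgeSpan_eq {R : Type} [Field R] (g : GL ι R) (h : HodgeStr ι) (a b : ℕ) :
    hodgeSpan R g h a b = (Submodule.span R {w : Tens ι a b R | ∃ u : Tens ι a b ℚ,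
      IsHodge h u ∧ w = ratT R u}).map (actL g a b) := by
  rw [hodgeSpan, Submodule.map_span]
  congr 1
  ext y
  constructor
  · rintro ⟨x, hx, rfl⟩
    exact ⟨_, ⟨x, hx, rfl⟩, rfl⟩
  · rintro ⟨_, ⟨x, hx, rfl⟩, rfl⟩
    exact ⟨x, hx, rfl⟩

end Pool.Agent.Work.MP_0da4e0_ag.Lin
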