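import Pool.Agent.Work.MP_0da4e0_ag.Sp.Ker

/-! MP_0da4e0_ag, span criterion: the matrices killing all Hodge tensors with two upper and two lower
indices. -/

open Matrix

namespace Pool.Agent.Work.MP_0da4e0_ag.Lin

variable {ι : Type} [Fintype ι] [DecidableEq ι] {k : Type} [Field k]

/-- left multiplication by `A`, as a tensor -/
theorem exists_left (A : Matrix ι ι ℚ) : ∃ x : Tens ι 2 2 ℚ, ∀ B, endL x B = A * B := by
  obtain ⟨x, hx⟩ := exists_endT (LinearMap.mulLeft ℚ A)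
  exact ⟨x, fun B => by rw [hx]; rfl⟩

theorem left_map {R S : Type} [Field R] [Field S] (f : R →+* S) {A : Matrix ι ι R}
    {x : Tens ι 2 2 R} (hx : ∀ B, endL x B = A * B) (B : Matrix ι ι S) :
    endL (fun e => f (x e)) B = A.map f * B := by
  conv_lhs => rw [mat_sum_single B, map_sum]
  conv_rhs => rw [mat_sum_single B, Matrix.mul_sum]
  apply Finset.sum_congr rfl
  intro e _
  rw [map_smul, Matrix.mul_smul, ← single_map f, endL_map, hx, Matrix.map_mul]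

theorem left_cx {A : Matrix ι ι ℚ} {x : Tens ι 2 2 ℚ} (hx : ∀ B, endL x B = A * B)
    (B : Matrix ι ι ℂ) : endL (ratT ℂ x) B = cx A * B :=
  left_map (Rat.castHom ℂ) hx B

/-- a Hodge tensor of bidegree (2, 2) -/
theorem left_hodge {h : HodgeStr ι} {A : Matrix ι ι ℚ} (hA : IsHodge h (matT A)) {x : Tens ι 2 2 ℚ}
    (hx : ∀ B, endL x B = A * B) : IsHodge h x := by
  intro z w g hg
  have h1 := hA z w g hg
  rw [ratT_matT, act_matT] at h1
  have h2 := matT_injective h1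
  apply endL_injective
  apply LinearMap.ext
  intro B
  rw [endL_act, left_cx hx, left_cx hx]
  have h3 : (g : Matrix ι ι ℂ) * cx A = cx A * (g : Matrix ι ι ℂ) := by
    calc (g : Matrix ι ι ℂ) * cx A
        = ((g : Matrix ι ι ℂ) * cx A * ((g⁻¹ : GL ι ℂ) : Matrix ι ι ℂ)) * (g : Matrix ι ι ℂ) := by
          rw [Matrix.mul_assoc _ _ (g : Matrix ι ι ℂ), ig, Matrix.mul_one]
      _ = _ := by rw [h2]
  calc _ = ((g : Matrix ι ι ℂ) * cx A) * (((g⁻¹ : GL ι ℂ) : Matrix ι ι ℂ) * B * (g : Matrix ι ι ℂ)) *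
        ((g⁻¹ : GL ι ℂ) : Matrix ι ι ℂ) := by simp only [Matrix.mul_assoc]
    _ = cx A * ((g : Matrix ι ι ℂ) * ((g⁻¹ : GL ι ℂ) : Matrix ι ι ℂ)) * B *
        ((g : Matrix ι ι ℂ) * ((g⁻¹ : GL ι ℂ) : Matrix ι ι ℂ)) := by
      rw [h3]; simp only [Matrix.mul_assoc]
    _ = _ := by rw [gi, Matrix.mul_one, Matrix.mul_one]

/-- the matrix kills all Hodge tensors of bidegree (2, 2) -/
def Kills22 (h : HodgeStr ι) (Y : Matrix ι ι ℂ) : Prop :=
  ∀ x : Tens ι 2 2 ℚ, IsHodge h x → dact Y (ratT ℂ x) = 0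

theorem kills22_endo {h : HodgeStr ι} {Y : Matrix ι ι ℂ} (hY : Kills22 h Y) (A : Matrix ι ι ℚ)
    (hA : IsHodge h (matT A)) : dact Y (ratT ℂ (matT A)) = 0 := by
  obtain ⟨x, hx⟩ := exists_left A
  have h1 := endL_dact Y (ratT ℂ x) 1
  rw [hY x (left_hodge hA hx), left_cx hx, left_cx hx] at h1
  have h2 : endL (0 : Tens ι 2 2 ℂ) (1 : Matrix ι ι ℂ) = 0 := by
    ext i j
    simp [endL_apply]
  rw [h2, Matrix.mul_one, Matrix.mul_one, Matrix.one_mul, sub_self, Matrix.mul_zero, sub_zero] at h1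
  rw [ratT_matT, dact_matT, ← h1]
  rfl

theorem cen_central {h : HodgeStr ι} {Z : Matrix ι ι ℂ} (hZ : Cen h Z) : Ex.IsCentralC h Z := by
  rw [← Ex.mem_cen_iff]
  refine ⟨hZ.1, fun C hC => ?_⟩
  have hspan := mem_span_endo hC
  clear hC
  induction hspan using Submodule.span_induction with
  | mem x hx => obtain ⟨A, hA, rfl⟩ := hx; exact hZ.2 A hA
  | zero => rw [Matrix.zero_mul, Matrix.mul_zero]
  | add x y _ _ hx hy => rw [Matrix.add_mul, Matrix.mul_add, hx, hy]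
  | smul c x _ hx => rw [Matrix.smul_mul, Matrix.mul_smul, hx]

theorem central_scalar {h : HodgeStr ι} {C : Matrix ι ι ℂ} (hC : Ex.IsCentralC h C)
    (hZ : ∀ Z : Matrix ι ι ℚ, Ex.IsCentral h Z → ∃ c : ℚ, Z = c • (1 : Matrix ι ι ℚ)) :
    ∃ γ : ℂ, C = γ • (1 : Matrix ι ι ℂ) := by
  unfold Ex.IsCentralC at hC
  induction hC using Submodule.span_induction with
  | mem y hy =>
    obtain ⟨Z, hZ1, rfl⟩ := hy
    obtain ⟨r, rfl⟩ := hZ Z hZ1
    refine ⟨(r : ℂ), ?_⟩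
    ext i j
    simp only [cx, Matrix.map_apply, Matrix.smul_apply, smul_eq_mul, Matrix.one_apply]
    split_ifs <;> simp
  | zero => exact ⟨0, by rw [zero_smul]⟩
  | add y z _ _ hy hz =>
    obtain ⟨α, rfl⟩ := hy
    obtain ⟨β, rfl⟩ := hz
    exact ⟨α + β, by rw [add_smul]⟩
  | smul r y _ hy =>
    obtain ⟨α, rfl⟩ := hy
    exact ⟨r * α, by rw [smul_smul]⟩

/-- in nonzero pure weight, scalars are in the Lie algebra -/
theorem scalar_mem {h : HodgeStr ι} {w : ℤ} (hw : w ≠ 0)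
    (hpure : ∀ p q, h.V (p, q) ≠ ⊥ → p + q = w) (γ : ℂ) :
    γ • (1 : Matrix ι ι ℂ) ∈ mtLieC h := by
  intro a b x hx
  by_cases hab : a = b
  · subst hab
    rw [dact_smul, dact_one, sub_self, zero_smul, smul_zero]
  · rw [Ex.balanced hw hpure hx hab, ratT_zero, dact, Matrix.mulVec_zero]

/-- nonzero pure weight and scalar center: the Lie algebra is the annihilator of the Hodge tensors
of bidegree (2, 2) -/
theorem kills22_mem {h : HodgeStr ι} {S : Matrix ι ι ℚ} (hS : Polarizes h S) {w : ℤ} (hw : w ≠ 0)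
    (hpure : ∀ p q, h.V (p, q) ≠ ⊥ → p + q = w)
    (hZ : ∀ Z : Matrix ι ι ℚ, Ex.IsCentral h Z → ∃ c : ℚ, Z = c • (1 : Matrix ι ι ℚ))
    {Y : Matrix ι ι ℂ} (hY : Kills22 h Y) : Y ∈ mtLieC h := by
  obtain ⟨π, hπ⟩ := exists_projQ hS
  obtain ⟨Y1, hY1, hcen⟩ := splitProj hS hπ Y (hY π (hπ.isHodge hS)) (kills22_endo hY)
  obtain ⟨γ, hγ⟩ := central_scalar (cen_central hcen) hZ
  have h1 : Y = Y1 + γ • (1 : Matrix ι ι ℂ) := by rw [← hγ]; abel
  rw [h1]
  exact Submodule.add_mem _ hY1 (scalar_mem hw hpure γ)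

end Pool.Agent.Work.MP_0da4e0_ag.Lin
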