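import Pool.Agent.Work.MP_0da4e0_ag.Sp.Spans

/-! MP_0da4e0_ag, span criterion: main theorems. -/

open Matrix Matrix.GeneralLinearGroup

namespace Pool.Agent.Work.MP_0da4e0_ag.Lin

variable {ι : Type} [Fintype ι] [DecidableEq ι] {k : Type} [Field k]

/-- the consequences of the left side -/
theorem etSpan_of_fin {H : RealSys k ι} (hpol : ∀ σ, ∃ S : Matrix ι ι ℚ, Polarizes (H.hodge σ) S)
    (h : ∀ σ, ∃ N₀ : ℕ, ∀ (a b : ℕ) (x : Tens ι a b ℚ), IsHodge (H.hodge σ) x →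
      IsFinAHet H σ N₀ x) (a b : ℕ) : EtSpan H a b := by
  refine etSpan_of_indep hpol (etIndep_of_fin hpol fun σ a b x hx => ?_) a b
  obtain ⟨N₀, h1⟩ := h σ
  exact ⟨N₀, h1 a b x hx⟩

theorem drSpan_of_fin {H : RealSys k ι} (hpol : ∀ σ, ∃ S : Matrix ι ι ℚ, Polarizes (H.hodge σ) S)
    (h : ∀ σ, ∃ N₀ : ℕ, ∀ (a b : ℕ) (x : Tens ι a b ℚ), IsHodge (H.hodge σ) x →
      IsFinAH H σ N₀ x) (a b : ℕ) : DRSpan H a b := by
  refine drSpan_of_indep (drIndep_of_fin hpol fun σ a b x hx => ?_) a b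
  obtain ⟨N₀, h1⟩ := h σ
  exact ⟨N₀, h1 a b x hx⟩

theorem et_of_all {H : RealSys k ι}
    (h : ∀ σ, ∃ N₀ : ℕ, ∀ (a b : ℕ) (x : Tens ι a b ℚ), IsHodge (H.hodge σ) x →
      IsFinAH H σ N₀ x) : ∀ σ, ∃ N₀ : ℕ, ∀ (a b : ℕ) (x : Tens ι a b ℚ), IsHodge (H.hodge σ) x →
      IsFinAHet H σ N₀ x := by
  intro σ
  obtain ⟨N₀, h1⟩ := h σ
  exact ⟨N₀, fun a b x hx => IsFinAHet.of_fin (h1 a b x hx)⟩

/-! ### the general case -/

theorem etIndep_of_weil {H : RealSys k ι}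
    (hpol : ∀ σ, ∃ S : Matrix ι ι ℚ, Polarizes (H.hodge σ) S) (h : ℕ)
    (hh : ∀ (σ : k →+* ℂ) (p q : ℤ), (H.hodge σ).V (p, q) ≠ ⊥ → |p| ≤ h)
    (hE : EtSpan H 2 2)
    (hW : ∀ (σ : k →+* ℂ) (a b : ℕ), a ≤ weilN (Fintype.card ι) h → b ≤ weilN (Fintype.card ι) h →
      ∀ x : Tens ι a b ℚ, IsHodge (H.hodge σ) x → IsWeil (H.hodge σ) x →
        ∃ N₀, IsFinAHet H σ N₀ x) : EtIndep H := by
  refine etIndep_of_lie hpol ?_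
  intro σ τ l hl γ Y hY
  obtain ⟨S, hS⟩ := hpol σ
  obtain ⟨π, hπ⟩ := exists_projQ hS
  refine weil_kills' hS (hh σ) hπ _
    ((et_maps hE σ τ γ).kills (mt_kills22 hY) π (hπ.isHodge hS)) ?_
  intro a b ha hb x hx hxW
  obtain ⟨N₀, h1⟩ := hW σ a b ha hb x hx hxW
  exact cj_kills (killed_et h1 τ γ hY)

theorem drIndep_of_weil [IsAlgClosed k] {H : RealSys k ι}
    (hpol : ∀ σ, ∃ S : Matrix ι ι ℚ, Polarizes (H.hodge σ) S) (h : ℕ)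
    (hh : ∀ (σ : k →+* ℂ) (p q : ℤ), (H.hodge σ).V (p, q) ≠ ⊥ → |p| ≤ h)
    (hD : DRSpan H 2 2)
    (hW : ∀ (σ : k →+* ℂ) (a b : ℕ), a ≤ weilN (Fintype.card ι) h → b ≤ weilN (Fintype.card ι) h →
      ∀ x : Tens ι a b ℚ, IsHodge (H.hodge σ) x → IsWeil (H.hodge σ) x →
        ∃ N₀, IsFinAH H σ N₀ x) : DRIndep H := by
  refine drIndep_of_lie hpol ?_
  intro σ τ α β hαβ Y hY
  obtain ⟨S, hS⟩ := hpol σ
  obtain ⟨π, hπ⟩ := exists_projQ hS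
  refine weil_kills' hS (hh σ) hπ _
    ((dr_maps hD σ τ hαβ).kills (mt_kills22 hY) π (hπ.isHodge hS)) ?_
  intro a b ha hb x hx hxW
  obtain ⟨N₀, h1⟩ := hW σ a b ha hb x hx hxW
  exact cj_kills (killed_per h1 τ hαβ hY)

/-- The `l`-adic span criterion. -/
theorem span_et [IsAlgClosed k] {H : RealSys k ι}
    (hpol : ∀ σ, ∃ S : Matrix ι ι ℚ, Polarizes (H.hodge σ) S) (h : ℕ)
    (hh : ∀ (σ : k →+* ℂ) (p q : ℤ), (H.hodge σ).V (p, q) ≠ ⊥ → |p| ≤ h) :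
    (∀ σ, ∃ N₀ : ℕ, ∀ (a b : ℕ) (x : Tens ι a b ℚ), IsHodge (H.hodge σ) x → IsFinAHet H σ N₀ x) ↔
      EtSpan H 2 2 ∧ ∀ (σ : k →+* ℂ) (a b : ℕ), a ≤ weilN (Fintype.card ι) h →
        b ≤ weilN (Fintype.card ι) h → ∀ x : Tens ι a b ℚ, IsHodge (H.hodge σ) x →
          IsWeil (H.hodge σ) x → ∃ N₀ : ℕ, IsFinAHet H σ N₀ x := by
  constructor
  · intro hall
    exact ⟨etSpan_of_fin hpol hall 2 2, ((linear_et hpol h hh).1 hall).2⟩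
  · rintro ⟨hE, hW⟩
    exact (linear_et hpol h hh).2 ⟨etIndep_of_weil hpol h hh hE hW, hW⟩

/-- The span criterion. -/
theorem span_all [IsAlgClosed k] {H : RealSys k ι}
    (hpol : ∀ σ, ∃ S : Matrix ι ι ℚ, Polarizes (H.hodge σ) S) (h : ℕ)
    (hh : ∀ (σ : k →+* ℂ) (p q : ℤ), (H.hodge σ).V (p, q) ≠ ⊥ → |p| ≤ h) :
    (∀ σ, ∃ N₀ : ℕ, ∀ (a b : ℕ) (x : Tens ι a b ℚ), IsHodge (H.hodge σ) x → IsFinAH H σ N₀ x) ↔
      (EtSpan H 2 2 ∧ DRSpan H 2 2) ∧ ∀ (σ : k →+* ℂ) (a b : ℕ), a ≤ weilN (Fintype.card ι) h →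
        b ≤ weilN (Fintype.card ι) h → ∀ x : Tens ι a b ℚ, IsHodge (H.hodge σ) x →
          IsWeil (H.hodge σ) x → ∃ N₀ : ℕ, IsFinAH H σ N₀ x := by
  constructor
  · intro hall
    exact ⟨⟨etSpan_of_fin hpol (et_of_all hall) 2 2, drSpan_of_fin hpol hall 2 2⟩,
      ((linear_all hpol h hh).1 hall).2⟩
  · rintro ⟨⟨hE, hD⟩, hW⟩
    refine (linear_all hpol h hh).2 ⟨⟨etIndep_of_weil hpol h hh hE ?_,
      drIndep_of_weil hpol h hh hD hW⟩, hW⟩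
    intro σ a b ha hb x hx hxW
    obtain ⟨N₀, h1⟩ := hW σ a b ha hb x hx hxW
    exact ⟨N₀, IsFinAHet.of_fin h1⟩

/-! ### scalar center -/

/-- the center is scalar at every embedding -/
theorem center_all {H : RealSys k ι} (hE : EtSpan H 2 2) (s : k →+* ℂ)
    (hZ : ∀ Z : Matrix ι ι ℚ, Ex.IsCentral (H.hodge s) Z → ∃ c : ℚ, Z = c • (1 : Matrix ι ι ℚ))
    (t : k →+* ℂ) (Z : Matrix ι ι ℚ) (hZt : Ex.IsCentral (H.hodge t) Z) :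
    ∃ c : ℚ, Z = c • (1 : Matrix ι ι ℚ) := by
  have : Fact (Nat.Prime 2) := ⟨Nat.prime_two⟩
  obtain ⟨γ⟩ := embed_padic 2
  refine center_transport (et_maps hE s t γ) ?_ hZ Z hZt
  rw [cmp_inv]
  exact et_maps hE t s γ

theorem etIndep_of_center {H : RealSys k ι}
    (hpol : ∀ σ, ∃ S : Matrix ι ι ℚ, Polarizes (H.hodge σ) S) {w : ℤ} (hw : w ≠ 0)
    (hpure : ∀ (t : k →+* ℂ) p q, (H.hodge t).V (p, q) ≠ ⊥ → p + q = w) (s : k →+* ℂ)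
    (hZ : ∀ Z : Matrix ι ι ℚ, Ex.IsCentral (H.hodge s) Z → ∃ c : ℚ, Z = c • (1 : Matrix ι ι ℚ))
    (hE : EtSpan H 2 2) : EtIndep H := by
  refine etIndep_of_lie hpol ?_
  intro σ τ l hl γ Y hY
  obtain ⟨S, hS⟩ := hpol σ
  exact kills22_mem hS hw (hpure σ) (center_all hE s hZ σ)
    ((et_maps hE σ τ γ).kills (mt_kills22 hY))

theorem drIndep_of_center [IsAlgClosed k] {H : RealSys k ι}
    (hpol : ∀ σ, ∃ S : Matrix ι ι ℚ, Polarizes (H.hodge σ) S) {w : ℤ} (hw : w ≠ 0)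
    (hpure : ∀ (t : k →+* ℂ) p q, (H.hodge t).V (p, q) ≠ ⊥ → p + q = w) (s : k →+* ℂ)
    (hZ : ∀ Z : Matrix ι ι ℚ, Ex.IsCentral (H.hodge s) Z → ∃ c : ℚ, Z = c • (1 : Matrix ι ι ℚ))
    (hE : EtSpan H 2 2) (hD : DRSpan H 2 2) : DRIndep H := by
  refine drIndep_of_lie hpol ?_
  intro σ τ α β hαβ Y hY
  obtain ⟨S, hS⟩ := hpol σ
  exact kills22_mem hS hw (hpure σ) (center_all hE s hZ σ)
    ((dr_maps hD σ τ hαβ).kills (mt_kills22 hY))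

/-- nonzero pure weight and scalar center: the projector and the Hodge endomorphisms suffice -/
theorem fin_all_of_center [IsAlgClosed k] {H : RealSys k ι} {σ : k →+* ℂ} {S : Matrix ι ι ℚ}
    (hS : Polarizes (H.hodge σ) S) {w : ℤ} (hw : w ≠ 0)
    (hpure : ∀ p q, (H.hodge σ).V (p, q) ≠ ⊥ → p + q = w)
    (hZ : ∀ Z : Matrix ι ι ℚ, Ex.IsCentral (H.hodge σ) Z → ∃ c : ℚ, Z = c • (1 : Matrix ι ι ℚ))
    (hA : ∀ A : Matrix ι ι ℚ, IsHodge (H.hodge σ) (matT A) → ∃ N₀, IsFinAH H σ N₀ (matT A))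
    (s : AHTensor H 2 2) (hs : IsLieProj (H.hodge σ) (s.betti σ)) :
    ∃ N₀, ∀ (a b : ℕ) (x : Tens ι a b ℚ), IsHodge (H.hodge σ) x → IsFinAH H σ N₀ x := by
  have h1 := (one_class H σ S hS hs (I := Empty) (m := fun i => i.elim) (n := fun i => i.elim)
    (fun i => i.elim) (fun i => i.elim)).2 ⟨⟨1, fin_of_ah s σ⟩, hA, fun i => i.elim⟩
  obtain ⟨N₀, h2⟩ := h1
  refine ⟨N₀, fun a b x hx => h2 a b x hx ?_⟩
  intro Z hZH hZc _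
  obtain ⟨c, rfl⟩ := hZ Z ⟨hZH, hZc⟩
  have h3 := scalar_mem hw hpure (c : ℂ) a b x hx
  have h4 : cx (c • (1 : Matrix ι ι ℚ)) = (c : ℂ) • (1 : Matrix ι ι ℂ) := by
    ext i j
    simp only [cx, Matrix.map_apply, Matrix.smul_apply, smul_eq_mul, Matrix.one_apply]
    split_ifs <;> simp
  rw [← h4, dact_ratT] at h3
  exact ratT_injective (R := ℂ) (by rw [h3, ratT_zero])

/-- scalar center, up to finite ambiguity, `l`-adic -/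
theorem center_et [IsAlgClosed k] {H : RealSys k ι}
    (hpol : ∀ σ, ∃ S : Matrix ι ι ℚ, Polarizes (H.hodge σ) S) {w : ℤ} (hw : w ≠ 0)
    (hpure : ∀ (t : k →+* ℂ) p q, (H.hodge t).V (p, q) ≠ ⊥ → p + q = w) (s : k →+* ℂ)
    (hZ : ∀ Z : Matrix ι ι ℚ, Ex.IsCentral (H.hodge s) Z → ∃ c : ℚ, Z = c • (1 : Matrix ι ι ℚ)) :
    (∀ σ, ∃ N₀ : ℕ, ∀ (a b : ℕ) (x : Tens ι a b ℚ), IsHodge (H.hodge σ) x → IsFinAHet H σ N₀ x) ↔
      EtSpan H 2 2 ∧ ∀ A : Matrix ι ι ℚ, IsHodge (H.hodge s) (matT A) →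
        ∃ N₀ : ℕ, IsFinAHet H s N₀ (matT A) := by
  constructor
  · intro hall
    refine ⟨etSpan_of_fin hpol hall 2 2, fun A hA => ?_⟩
    obtain ⟨N₀, h1⟩ := hall s
    exact ⟨N₀, h1 1 1 _ hA⟩
  · rintro ⟨hE, hA⟩ τ
    have hI := etIndep_of_center hpol hw hpure s hZ hE
    refine finEt_transport hpol hI s τ ?_
    choose S hS using hpol
    choose π hπ using fun σ => exists_projQ (hS σ)
    have : Fact (Nat.Prime 2) := ⟨Nat.prime_two⟩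
    obtain ⟨γ⟩ := embed_padic 2
    obtain ⟨t, ht⟩ := exists_tw γ hS hπ hI s
    obtain ⟨N₀, h2⟩ := fin_all_of_center (H := tw H γ s) (σ := s) (hS s) hw (hpure s) hZ
      (fun A hAH => by
        obtain ⟨N₁, h3⟩ := hA A hAH
        exact ⟨N₁, fin_tw γ h3⟩) t (by rw [ht]; exact hπ s)
    intro a b x hx
    refine ⟨N₀, ?_⟩
    obtain ⟨N, hN, j₀, D, B, h0, hinj, halg, htype, -, hgal, had⟩ := h2 a b x hx
    exact ⟨N, hN, j₀, B, h0, hinj, halg, htype, hgal, had⟩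

/-- scalar center, up to finite ambiguity -/
theorem center_fin [IsAlgClosed k] {H : RealSys k ι}
    (hpol : ∀ σ, ∃ S : Matrix ι ι ℚ, Polarizes (H.hodge σ) S) {w : ℤ} (hw : w ≠ 0)
    (hpure : ∀ (t : k →+* ℂ) p q, (H.hodge t).V (p, q) ≠ ⊥ → p + q = w) (s : k →+* ℂ)
    (hZ : ∀ Z : Matrix ι ι ℚ, Ex.IsCentral (H.hodge s) Z → ∃ c : ℚ, Z = c • (1 : Matrix ι ι ℚ)) :
    (∀ σ, ∃ N₀ : ℕ, ∀ (a b : ℕ) (x : Tens ι a b ℚ), IsHodge (H.hodge σ) x → IsFinAH H σ N₀ x) ↔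
      (EtSpan H 2 2 ∧ DRSpan H 2 2) ∧ ∀ A : Matrix ι ι ℚ, IsHodge (H.hodge s) (matT A) →
        ∃ N₀ : ℕ, IsFinAH H s N₀ (matT A) := by
  constructor
  · intro hall
    refine ⟨⟨etSpan_of_fin hpol (et_of_all hall) 2 2, drSpan_of_fin hpol hall 2 2⟩,
      fun A hA => ?_⟩
    obtain ⟨N₀, h1⟩ := hall s
    exact ⟨N₀, h1 1 1 _ hA⟩
  · rintro ⟨⟨hE, hD⟩, hA⟩ τ
    have hI := etIndep_of_center hpol hw hpure s hZ hE
    have hID := drIndep_of_center hpol hw hpure s hZ hE hD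
    refine fin_transport hpol hI s τ ?_
    obtain ⟨t, ht⟩ := (indep_iff hpol).1 ⟨hI, hID⟩
    obtain ⟨S, hS⟩ := hpol s
    obtain ⟨N₀, h2⟩ := fin_all_of_center hS hw (hpure s) hZ hA t (ht s)
    exact fun a b x hx => ⟨N₀, h2 a b x hx⟩

/-- scalar center, exact -/
theorem center_exact [IsAlgClosed k] {H : RealSys k ι}
    (hpol : ∀ σ, ∃ S : Matrix ι ι ℚ, Polarizes (H.hodge σ) S) {w : ℤ} (hw : w ≠ 0)
    (hpure : ∀ (t : k →+* ℂ) p q, (H.hodge t).V (p, q) ≠ ⊥ → p + q = w) (s : k →+* ℂ)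
    (hZ : ∀ Z : Matrix ι ι ℚ, Ex.IsCentral (H.hodge s) Z → ∃ c : ℚ, Z = c • (1 : Matrix ι ι ℚ)) :
    (∀ (σ : k →+* ℂ) (a b : ℕ) (x : Tens ι a b ℚ), IsHodge (H.hodge σ) x →
      ∃ t : AHTensor H a b, t.betti σ = x) ↔
    (EtSpan H 2 2 ∧ DRSpan H 2 2) ∧
      ∀ f : ℕ, f = 1 ∨ 2 * f ≤ Fintype.card ι → ∀ x : Tens ι f f ℚ, IsHodge (H.hodge s) x →
        Ex.Alt2 x → ∃ t : AHTensor H f f, t.betti s = x := by
  constructor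
  · intro hall
    have h0 : ∀ σ, ∃ N₀ : ℕ, ∀ (a b : ℕ) (x : Tens ι a b ℚ), IsHodge (H.hodge σ) x →
        IsFinAH H σ N₀ x := by
      intro σ
      refine ⟨1, fun a b x hx => ?_⟩
      obtain ⟨t, rfl⟩ := hall σ a b x hx
      exact fin_of_ah t σ
    exact ⟨⟨etSpan_of_fin hpol (et_of_all h0) 2 2, drSpan_of_fin hpol h0 2 2⟩,
      fun f _ x hx _ => hall s f f x hx⟩
  · rintro ⟨⟨hE, hD⟩, hA⟩
    exact (one_exact hpol s hw (hpure s) hZ).2 ⟨⟨etIndep_of_center hpol hw hpure s hZ hE,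
      drIndep_of_center hpol hw hpure s hZ hE hD⟩, hA⟩

/-- scalar Hodge endomorphisms -/
theorem scalar_both [IsAlgClosed k] {H : RealSys k ι}
    (hpol : ∀ σ, ∃ S : Matrix ι ι ℚ, Polarizes (H.hodge σ) S) {w : ℤ} (hw : w ≠ 0)
    (hpure : ∀ (t : k →+* ℂ) p q, (H.hodge t).V (p, q) ≠ ⊥ → p + q = w) (s : k →+* ℂ)
    (hA : ∀ A : Matrix ι ι ℚ, IsHodge (H.hodge s) (matT A) → ∃ c : ℚ, A = c • (1 : Matrix ι ι ℚ)) :
    ((∀ σ, ∃ N₀ : ℕ, ∀ (a b : ℕ) (x : Tens ι a b ℚ), IsHodge (H.hodge σ) x →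
      IsFinAHet H σ N₀ x) ↔ EtSpan H 2 2) ∧
    ((∀ σ, ∃ N₀ : ℕ, ∀ (a b : ℕ) (x : Tens ι a b ℚ), IsHodge (H.hodge σ) x →
      IsFinAH H σ N₀ x) ↔ EtSpan H 2 2 ∧ DRSpan H 2 2) := by
  have hZ : ∀ Z : Matrix ι ι ℚ, Ex.IsCentral (H.hodge s) Z →
      ∃ c : ℚ, Z = c • (1 : Matrix ι ι ℚ) := fun Z h => hA Z h.1
  have h1 := one_scalar hpol s hw (hpure s) hA
  constructor
  · constructor
    · exact fun hall => etSpan_of_fin hpol hall 2 2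
    · exact fun hE => h1.1.2 (etIndep_of_center hpol hw hpure s hZ hE)
  · constructor
    · exact fun hall => ⟨etSpan_of_fin hpol (et_of_all hall) 2 2, drSpan_of_fin hpol hall 2 2⟩
    · rintro ⟨hE, hD⟩
      exact h1.2.2 ⟨etIndep_of_center hpol hw hpure s hZ hE,
        drIndep_of_center hpol hw hpure s hZ hE hD⟩

end Pool.Agent.Work.MP_0da4e0_ag.Lin
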