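import Pool.Agent.Work.MP_0da4e0_ag.Sp.Trans

/-! MP_0da4e0_ag, span criterion: the spans of the Hodge tensors and the spans of the Lie algebra. -/

open Matrix Matrix.GeneralLinearGroup

namespace Pool.Agent.Work.MP_0da4e0_ag.Lin

variable {ι : Type} [Fintype ι] [DecidableEq ι] {k : Type} [Field k]

theorem span_map {R S J : Type} [Field R] [Field S] (f : R →+* S) (W : Set (J → R)) {t : J → R}
    (ht : t ∈ Submodule.span R W) :
    (fun j => f (t j)) ∈ Submodule.span S {w : J → S | ∃ u ∈ W, w = fun j => f (u j)} := by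
  induction ht using Submodule.span_induction with
  | mem x hx => exact Submodule.subset_span ⟨x, hx, rfl⟩
  | zero =>
    have : (fun j => f ((0 : J → R) j)) = 0 := by funext j; simp
    rw [this]
    exact Submodule.zero_mem _
  | add x y _ _ hx hy =>
    have : (fun j => f ((x + y) j)) = (fun j => f (x j)) + fun j => f (y j) := by
      funext j; simp
    rw [this]
    exact Submodule.add_mem _ hx hy
  | smul c x _ hx =>
    have : (fun j => f ((c • x) j)) = f c • fun j => f (x j) := by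
      funext j; simp
    rw [this]
    exact Submodule.smul_mem _ _ hx

omit [Fintype ι] [DecidableEq ι] in
theorem span_map_rat {R S : Type} [Field R] [Field S] (f : R →+* S) {a b : ℕ}
    {P : Tens ι a b ℚ → Prop} {t : Tens ι a b R}
    (ht : t ∈ Submodule.span R {w : Tens ι a b R | ∃ u : Tens ι a b ℚ, P u ∧ w = ratT R u}) :
    (fun e => f (t e)) ∈ Submodule.span S {w : Tens ι a b S | ∃ u : Tens ι a b ℚ, P u ∧
      w = ratT S u} := by
  refine Submodule.span_mono ?_ (span_map f _ ht)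
  rintro _ ⟨_, ⟨u, hu, rfl⟩, rfl⟩
  exact ⟨u, hu, ratT_map f u⟩

/-- the `l`-adic comparisons preserve the spans -/
theorem et_maps {H : RealSys k ι} (hE : EtSpan H 2 2) (σ τ : k →+* ℂ) {l : ℕ} [Fact l.Prime]
    (γ : ℚ_[l] →+* ℂ) : Maps22 (cmp H σ τ γ) (H.hodge σ) (H.hodge τ) := by
  intro x hx
  have h1 : act (H.et σ l) (ratT ℚ_[l] x) ∈ hodgeSpan ℚ_[l] (H.et τ l) (H.hodge τ) 2 2 := by
    rw [← hE l σ τ]
    exact Submodule.subset_span ⟨x, hx, rfl⟩
  rw [hodgeSpan_eq] at h1
  obtain ⟨t, ht, hxt⟩ := h1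
  have h2 := span_map_rat (S := ℂ) γ ht
  have h3 := congrArg (fun t : Tens ι 2 2 ℚ_[l] => fun e => γ (t e)) hxt
  change (fun e => γ (act (H.et τ l) t e)) = fun e => γ (act (H.et σ l) (ratT ℚ_[l] x) e) at h3
  rw [map_act, map_act, ratT_map] at h3
  rw [cmp, act_mul, ← h3, act_inv_act]
  exact h2

/-- the de Rham comparisons preserve the spans -/
theorem dr_maps {H : RealSys k ι} (hD : DRSpan H 2 2) (σ τ : k →+* ℂ) {α β : ℂ →+* ℂ}
    (hαβ : α.comp σ = β.comp τ) : Maps22 (cmpD H σ τ α β) (H.hodge σ) (H.hodge τ) := by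
  intro x hx
  obtain ⟨L, hL⟩ := hD
  have h1 : act (H.per σ) (ratT ℂ x) ∈ Submodule.span ℂ
      {y : Tens ι 2 2 ℂ | ∃ x ∈ L, y = fun e => σ (x e)} := by
    rw [← hL σ]
    exact Submodule.subset_span ⟨x, hx, rfl⟩
  have h2 := span_map α _ h1
  have h3 : (fun e => α (act (H.per σ) (ratT ℂ x) e)) = act (map α (H.per σ)) (ratT ℂ x) := by
    rw [map_act, ratT_map]
  rw [h3] at h2
  rw [cmpD, act_mul]
  generalize act (map α (H.per σ)) (ratT ℂ x) = t at h2
  change actL (map β (H.per τ))⁻¹ 2 2 t ∈ _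
  have h4 : Submodule.span ℂ {w : Tens ι 2 2 ℂ | ∃ u ∈ {y : Tens ι 2 2 ℂ |
      ∃ x ∈ L, y = fun e => σ (x e)}, w = fun e => α (u e)} ≤ (Submodule.span ℂ
        {w : Tens ι 2 2 ℂ | ∃ y : Tens ι 2 2 ℚ, IsHodge (H.hodge τ) y ∧ w = ratT ℂ y}).comap
          (actL (map β (H.per τ))⁻¹ 2 2) := by
    rw [Submodule.span_le]
    rintro _ ⟨_, ⟨y, hy, rfl⟩, rfl⟩
    have h5 : (fun e => α (σ (y e))) = fun e => β (τ (y e)) := by
      funext e
      exact congrArg (fun φ : k →+* ℂ => φ (y e)) hαβ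
    rw [h5]
    have h6 : (fun e => τ (y e)) ∈ hodgeSpan ℂ (H.per τ) (H.hodge τ) 2 2 := by
      rw [hL τ]
      exact Submodule.subset_span ⟨y, hy, rfl⟩
    rw [hodgeSpan_eq] at h6
    obtain ⟨t, ht, hyt⟩ := h6
    have h7 := span_map_rat (S := ℂ) β ht
    have h8 := congrArg (fun t : Tens ι 2 2 ℂ => fun e => β (t e)) hyt
    change (fun e => β (act (H.per τ) t e)) = fun e => β (τ (y e)) at h8
    rw [map_act] at h8
    rw [← h8]
    rw [SetLike.mem_coe, Submodule.mem_comap]
    have h9 : actL (map β (H.per τ))⁻¹ 2 2 (act (map β (H.per τ)) (fun e => β (t e))) =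
        fun e => β (t e) := act_inv_act _ _
    rw [h9]
    exact h7
  exact h4 h2

/-- if the spans of the Lie algebra do not depend on the embedding, then neither do the spans of the
Hodge tensors -/
theorem etSpan_of_indep {H : RealSys k ι} (hpol : ∀ σ, ∃ S : Matrix ι ι ℚ, Polarizes (H.hodge σ) S)
    (hI : EtIndep H) (a b : ℕ) : EtSpan H a b := by
  choose S hS using hpol
  have key : ∀ (l : ℕ) [Fact l.Prime] (σ τ : k →+* ℂ),
      hodgeSpan ℚ_[l] (H.et σ l) (H.hodge σ) a b ≤ hodgeSpan ℚ_[l] (H.et τ l) (H.hodge τ) a b := by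
    intro l hl σ τ
    obtain ⟨γ⟩ := embed_padic l
    rw [hodgeSpan, Submodule.span_le]
    rintro _ ⟨x, hx, rfl⟩
    rw [hodgeSpan_eq]
    refine ⟨act (H.et τ l)⁻¹ (act (H.et σ l) (ratT ℚ_[l] x)), ?_, act_act_inv _ _⟩
    apply mem_span_hodgeF
    intro X hX
    have h1 : (fun e => γ (act (H.et τ l)⁻¹ (act (H.et σ l) (ratT ℚ_[l] x)) e)) =
        act (cmp H σ τ γ) (ratT ℂ x) := by
      rw [map_act, map_act, ratT_map, cmp, act_mul, map_inv]
    have h2 : (X.map (Rat.castHom ℚ_[l])).map γ = cx X := by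
      ext i j
      simp [cx]
    have h3 : dact (cx X) (act (cmp H σ τ γ) (ratT ℂ x)) = 0 := by
      have h4 : cx X ∈ (mtLieC (H.hodge σ)).map (cjL (cmp H σ τ γ)) := by
        rw [cmp_lie hS hI σ τ γ]
        exact cx_mem hX
      obtain ⟨Y, hY, hYX⟩ := h4
      rw [← hYX, cjL_apply, ← act_dact, hY a b x hx, act_zero'']
    have h4 := map_dact γ (X.map (Rat.castHom ℚ_[l]))
      (act (H.et τ l)⁻¹ (act (H.et σ l) (ratT ℚ_[l] x)))
    rw [h1, h2, h3] at h4
    funext e
    apply γ.injective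
    rw [congrFun h4 e, Pi.zero_apply, Pi.zero_apply, map_zero]
  intro l hl σ τ
  exact le_antisymm (key l σ τ) (key l τ σ)

theorem dact_zeroT {Y : Matrix ι ι ℂ} {a b : ℕ} : dact Y (0 : Tens ι a b ℂ) = 0 := by
  rw [dact, Matrix.mulVec_zero]

/-- the elements of the span of the Lie algebra kill the transported Hodge tensors -/
theorem lieSpan_kills {h : HodgeStr ι} {g : GL ι ℂ} {Y : Matrix ι ι ℂ} (hY : Y ∈ lieSpan ℂ g h)
    {a b : ℕ} {x : Tens ι a b ℚ} (hx : IsHodge h x) : dact Y (act g (ratT ℂ x)) = 0 := by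
  unfold lieSpan at hY
  induction hY using Submodule.span_induction with
  | mem Y hY =>
    obtain ⟨X, hX, rfl⟩ := hY
    have h1 := cx_mem hX a b x hx
    have h2 := act_dact g (cx X) (ratT ℂ x)
    rw [h1, act_zero''] at h2
    exact h2.symm
  | zero => exact dact_zero _
  | add Y Z _ _ hY hZ => rw [dact_add, hY, hZ, add_zero]
  | smul c Y _ hY => rw [dact_smul, hY, smul_zero]

theorem drSpan_of_indep {H : RealSys k ι} (hI : DRIndep H) (a b : ℕ) : DRSpan H a b := by
  obtain ⟨L, hL⟩ := hI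
  refine ⟨{ carrier := {x : Tens ι a b k | ∀ X ∈ L, dact X x = 0}
            add_mem' := fun {x y} hx hy X hX => by
              rw [dact, Matrix.mulVec_add]
              change dact X x + dact X y = 0
              rw [hx X hX, hy X hX, add_zero]
            zero_mem' := fun X _ => by rw [dact, Matrix.mulVec_zero]
            smul_mem' := fun c x hx X hX => by
              rw [dact, Matrix.mulVec_smul]
              change c • dact X x = 0
              rw [hx X hX, smul_zero] }, fun τ => ?_⟩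
  apply le_antisymm
  · rw [hodgeSpan, Submodule.span_le]
    rintro _ ⟨x, hx, rfl⟩
    refine dact_bc τ (L : Set (Matrix ι ι k)) _ ?_
    intro X hX
    refine lieSpan_kills (h := H.hodge τ) ?_ hx
    rw [hL τ]
    exact Submodule.subset_span ⟨X, hX, rfl⟩
  · rw [Submodule.span_le]
    rintro _ ⟨u, hu, rfl⟩
    rw [hodgeSpan_eq]
    refine ⟨act (H.per τ)⁻¹ (fun e => τ (u e)), ?_, act_act_inv _ _⟩
    apply mem_span_hodge
    intro X hX
    have h1 : ∀ Y ∈ lieSpan ℂ (H.per τ) (H.hodge τ), dact Y (fun e => τ (u e)) = 0 := by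
      intro Y hY
      rw [hL τ] at hY
      induction hY using Submodule.span_induction with
      | mem Y hY =>
        obtain ⟨X, hX, rfl⟩ := hY
        rw [← map_dact, hu X hX]
        funext e
        rw [Pi.zero_apply, Pi.zero_apply, map_zero]
      | zero => exact dact_zero _
      | add Y Z _ _ hY hZ => rw [dact_add, hY, hZ, add_zero]
      | smul c Y _ hY => rw [dact_smul, hY, smul_zero]
    have h2 := h1 _ (Submodule.subset_span ⟨X, hX, rfl⟩)
    have h3 := act_dact (H.per τ)⁻¹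
      ((H.per τ : Matrix ι ι ℂ) * cx X * (((H.per τ)⁻¹ : GL ι ℂ) : Matrix ι ι ℂ)) (fun e => τ (u e))
    have h4 := cjL_inv' (H.per τ) (cx X)
    rw [cjL_apply, cjL_apply] at h4
    rw [h4] at h3
    rw [← h3]
    have h5 : dact ((H.per τ : Matrix ι ι ℂ) * cx X * (((H.per τ)⁻¹ : GL ι ℂ) : Matrix ι ι ℂ))
        (fun e => τ (u e)) = 0 := h2
    rw [h5, act_zero'']

end Pool.Agent.Work.MP_0da4e0_ag.Lin
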