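import Pool.Agent.Work.MP_0da4e0_ag.Sp.Left

/-! MP_0da4e0_ag, span criterion: transport along the comparison isomorphisms. -/

open Matrix Matrix.GeneralLinearGroup

namespace Pool.Agent.Work.MP_0da4e0_ag.Lin

variable {ι : Type} [Fintype ι] [DecidableEq ι] {k : Type} [Field k]

/-- `u` maps the Hodge tensors of bidegree (2, 2) of `h` to combinations of those of `h'` -/
def Maps22 (u : GL ι ℂ) (h h' : HodgeStr ι) : Prop :=
  ∀ x : Tens ι 2 2 ℚ, IsHodge h x → act u (ratT ℂ x) ∈ Submodule.span ℂ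
    {w : Tens ι 2 2 ℂ | ∃ y : Tens ι 2 2 ℚ, IsHodge h' y ∧ w = ratT ℂ y}

theorem dact_span {a b : ℕ} {P : Tens ι a b ℚ → Prop} {Y : Matrix ι ι ℂ}
    (hY : ∀ y, P y → dact Y (ratT ℂ y) = 0) {t : Tens ι a b ℂ}
    (ht : t ∈ Submodule.span ℂ {w : Tens ι a b ℂ | ∃ y : Tens ι a b ℚ, P y ∧ w = ratT ℂ y}) :
    dact Y t = 0 := by
  induction ht using Submodule.span_induction with
  | mem x hx => obtain ⟨y, hy, rfl⟩ := hx; exact hY y hy
  | zero => rw [dact, Matrix.mulVec_zero]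
  | add x y _ _ hx hy => rw [dact, Matrix.mulVec_add]; change dact Y x + dact Y y = 0; rw [hx, hy, add_zero]
  | smul c x _ hx => rw [dact, Matrix.mulVec_smul]; change c • dact Y x = 0; rw [hx, smul_zero]

/-- transport of an annihilated tensor -/
theorem cj_kills {u : GL ι ℂ} {Y : Matrix ι ι ℂ} {a b : ℕ} {t : Tens ι a b ℂ}
    (h : dact Y (act u t) = 0) : dact (cjL u⁻¹ Y) t = 0 := by
  have e1 := act_dact u⁻¹ Y (act u t)
  rw [h, act_zero'', act_inv_act] at e1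
  rw [cjL_apply]
  exact e1.symm

theorem Maps22.kills {u : GL ι ℂ} {h h' : HodgeStr ι} (hu : Maps22 u h h') {Y : Matrix ι ι ℂ}
    (hY : Kills22 h' Y) : Kills22 h (cjL u⁻¹ Y) :=
  fun x hx => cj_kills (dact_span (P := IsHodge h') hY (hu x hx))

theorem mt_kills22 {h : HodgeStr ι} {Y : Matrix ι ι ℂ} (hY : Y ∈ mtLieC h) : Kills22 h Y :=
  fun x hx => hY 2 2 x hx

/-- evaluation at the identity maps Hodge tensors to Hodge endomorphisms -/
theorem eval_hodge {h : HodgeStr ι} {y : Tens ι 2 2 ℚ} (hy : IsHodge h y) :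
    IsHodge h (matT (endL y 1)) := by
  intro z w g hg
  have h1 := hy z w g hg
  have h2 := endL_act g (ratT ℂ y) 1
  rw [h1, Matrix.mul_one, ig] at h2
  have h3 : endL (ratT ℂ y) 1 = cx (endL y 1) := by
    rw [← cx_one]
    exact endL_ratT y 1
  rw [ratT_matT, act_matT, ← h3, ← h2]

theorem Maps22.endo {u : GL ι ℂ} {h h' : HodgeStr ι} (hu : Maps22 u h h') {A : Matrix ι ι ℚ}
    (hA : IsHodge h (matT A)) : cjL u (cx A) ∈ Submodule.span ℂ
      {x : Matrix ι ι ℂ | ∃ A' : Matrix ι ι ℚ, IsHodge h' (matT A') ∧ x = cx A'} := by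
  obtain ⟨x, hx⟩ := exists_left A
  have h1 := hu x (left_hodge hA hx)
  have h2 : cjL u (cx A) = endL (act u (ratT ℂ x)) 1 := by
    rw [endL_act, Matrix.mul_one, ig, left_cx hx, Matrix.mul_one, cjL_apply]
  rw [h2]
  generalize act u (ratT ℂ x) = t at h1
  induction h1 using Submodule.span_induction with
  | mem t ht =>
    obtain ⟨y, hy, rfl⟩ := ht
    refine Submodule.subset_span ⟨endL y 1, eval_hodge hy, ?_⟩
    rw [← cx_one]
    exact endL_ratT y 1
  | zero =>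
    have : endL (0 : Tens ι 2 2 ℂ) (1 : Matrix ι ι ℂ) = 0 := by
      ext i j
      simp [endL_apply]
    rw [this]
    exact Submodule.zero_mem _
  | add s t _ _ hs ht =>
    have : endL (s + t) (1 : Matrix ι ι ℂ) = endL s 1 + endL t 1 := by
      ext i j
      simp only [endL_apply, Matrix.add_apply, Pi.add_apply, add_mul, Finset.sum_add_distrib]
    rw [this]
    exact Submodule.add_mem _ hs ht
  | smul c t _ ht =>
    have : endL (c • t) (1 : Matrix ι ι ℂ) = c • endL t 1 := by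
      ext i j
      simp only [endL_apply, Matrix.smul_apply, Pi.smul_apply, smul_eq_mul, Finset.mul_sum, mul_assoc]
    rw [this]
    exact Submodule.smul_mem _ _ ht

omit [DecidableEq ι] in
theorem commute_span {P : Matrix ι ι ℚ → Prop} {Z : Matrix ι ι ℂ}
    (hZ : ∀ A, P A → cx A * Z = Z * cx A) {X : Matrix ι ι ℂ}
    (hX : X ∈ Submodule.span ℂ {x : Matrix ι ι ℂ | ∃ A : Matrix ι ι ℚ, P A ∧ x = cx A}) :
    X * Z = Z * X := by
  induction hX using Submodule.span_induction with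
  | mem x hx => obtain ⟨A, hA, rfl⟩ := hx; exact hZ A hA
  | zero => rw [Matrix.zero_mul, Matrix.mul_zero]
  | add x y _ _ hx hy => rw [Matrix.add_mul, Matrix.mul_add, hx, hy]
  | smul c x _ hx => rw [Matrix.smul_mul, Matrix.mul_smul, hx]

theorem cjL_mul (u : GL ι ℂ) (A B : Matrix ι ι ℂ) : cjL u (A * B) = cjL u A * cjL u B := by
  rw [cjL_apply, cjL_apply, cjL_apply]
  calc (u : Matrix ι ι ℂ) * (A * B) * ((u⁻¹ : GL ι ℂ) : Matrix ι ι ℂ)
      = (u : Matrix ι ι ℂ) * A * 1 * B * ((u⁻¹ : GL ι ℂ) : Matrix ι ι ℂ) := by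
        rw [Matrix.mul_one]; simp only [Matrix.mul_assoc]
    _ = _ := by rw [← ig u]; simp only [Matrix.mul_assoc]

theorem cjL_inv' (u : GL ι ℂ) (A : Matrix ι ι ℂ) : cjL u⁻¹ (cjL u A) = A := by
  have h := cjL_inv u⁻¹ A
  rwa [inv_inv] at h

/-- scalar center is transported -/
theorem center_transport {u : GL ι ℂ} {h h' : HodgeStr ι} (hu : Maps22 u h h')
    (hu' : Maps22 u⁻¹ h' h)
    (hZ : ∀ Z : Matrix ι ι ℚ, Ex.IsCentral h Z → ∃ c : ℚ, Z = c • (1 : Matrix ι ι ℚ))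
    (Z : Matrix ι ι ℚ) (hZ' : Ex.IsCentral h' Z) : ∃ c : ℚ, Z = c • (1 : Matrix ι ι ℚ) := by
  have h1 : Cen h (cjL u⁻¹ (cx Z)) := by
    refine ⟨fun X hX => ?_, fun A hA => ?_⟩
    · exact (commute_span (P := fun A => IsHodge h (matT A)) (Z := X)
        (fun A hA => (mt_commute hX hA).symm) (hu'.endo hZ'.1)).symm
    · have h2 := commute_span (P := fun A => IsHodge h' (matT A)) (Z := cx Z)
        (fun A hA => by rw [← cx_mul, ← cx_mul, hZ'.2 A hA]) (hu.endo hA)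
      have h3 := congrArg (cjL u⁻¹) h2
      rwa [cjL_mul, cjL_mul, cjL_inv'] at h3
  obtain ⟨γ, hγ⟩ := central_scalar (cen_central h1) hZ
  have h2 : cx Z = γ • (1 : Matrix ι ι ℂ) := by
    have h3 := congrArg (cjL u) hγ
    rw [cjL_inv, map_smul, cjL_apply, Matrix.mul_one, gi] at h3
    exact h3
  rcases isEmpty_or_nonempty ι with hι | ⟨⟨i⟩⟩
  · exact ⟨0, Subsingleton.elim _ _⟩
  · refine ⟨Z i i, ?_⟩
    apply cx_injective
    have h3 : ((Z i i : ℚ) : ℂ) = γ := by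
      have h4 := congrFun (congrFun h2 i) i
      simpa [cx] using h4
    rw [h2]
    ext a b
    simp only [cx, Matrix.map_apply, Matrix.smul_apply, smul_eq_mul, Matrix.one_apply, ← h3]
    split_ifs <;> simp

/-- a transport which preserves the Lie algebras preserves the projectors -/
theorem act_proj' {h h' : HodgeStr ι} {π π' : Tens ι 2 2 ℚ}
    (hπ : IsLieProj h π) (hπ' : IsLieProj h' π') {u : GL ι ℂ}
    (k1 : ∀ Y ∈ mtLieC h', cjL u⁻¹ Y ∈ mtLieC h) (k2 : ∀ Y ∈ mtLieC h, cjL u Y ∈ mtLieC h') :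
    act u (ratT ℂ π) = ratT ℂ π' := by
  have p1 : IsPr (mtLieC h) (ratT ℂ π) := fun A =>
    ⟨hπ.mem A, fun X hX => hπ.orth A X hX⟩
  have p2 : IsPr (mtLieC h') (ratT ℂ π') := fun A =>
    ⟨hπ'.mem A, fun X hX => hπ'.orth A X hX⟩
  have hmap : (mtLieC h).map (cjL u) = mtLieC h' := by
    apply le_antisymm
    · rintro _ ⟨X, hX, rfl⟩
      exact k2 X hX
    · intro Y hY
      exact ⟨cjL u⁻¹ Y, k1 Y hY, cjL_inv u Y⟩
  have p3 := p1.act u
  rw [hmap] at p3
  exact p3.unique p2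

theorem cmp_inv (H : RealSys k ι) (σ τ : k →+* ℂ) {l : ℕ} [Fact l.Prime] (γ : ℚ_[l] →+* ℂ) :
    (cmp H σ τ γ)⁻¹ = cmp H τ σ γ := by
  rw [cmp, cmp, _root_.mul_inv_rev, inv_inv]

/-- the de Rham comparison between two embeddings -/
noncomputable def cmpD (H : RealSys k ι) (σ τ : k →+* ℂ) (α β : ℂ →+* ℂ) : GL ι ℂ :=
  (map β (H.per τ))⁻¹ * map α (H.per σ)

theorem cmpD_inv (H : RealSys k ι) (σ τ : k →+* ℂ) (α β : ℂ →+* ℂ) :
    (cmpD H σ τ α β)⁻¹ = cmpD H τ σ β α := by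
  rw [cmpD, cmpD, _root_.mul_inv_rev, inv_inv]

/-- `l`-adic half: if the comparisons preserve the Lie algebras, the spans do not depend on the
embedding -/
theorem etIndep_of_lie {H : RealSys k ι} (hpol : ∀ σ, ∃ S : Matrix ι ι ℚ, Polarizes (H.hodge σ) S)
    (h : ∀ (σ τ : k →+* ℂ) (l : ℕ) [Fact l.Prime] (γ : ℚ_[l] →+* ℂ), ∀ Y ∈ mtLieC (H.hodge τ),
      cjL (cmp H σ τ γ)⁻¹ Y ∈ mtLieC (H.hodge σ)) : EtIndep H := by
  choose S hS using hpol
  choose π hπ using fun σ => exists_projQ (hS σ)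
  refine et_of_proj hπ ?_
  intro l hl σ τ
  obtain ⟨γ⟩ := embed_padic l
  have h1 : act (cmp H σ τ γ) (ratT ℂ (π σ)) = ratT ℂ (π τ) := by
    refine act_proj' (hπ σ) (hπ τ) (h σ τ l γ) ?_
    intro Y hY
    have h2 := h τ σ l γ Y hY
    rwa [cmp_inv] at h2
  rw [cmp, act_mul] at h1
  have h2 : act (map γ (H.et σ l)) (ratT ℂ (π σ)) = act (map γ (H.et τ l)) (ratT ℂ (π τ)) := by
    rw [← h1, act_act_inv]
  have h3 : (fun e => γ (act (H.et σ l) (ratT ℚ_[l] (π σ)) e)) =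
      fun e => γ (act (H.et τ l) (ratT ℚ_[l] (π τ)) e) := by
    rw [map_act, map_act, ratT_map, ratT_map]
    exact h2
  funext e
  exact γ.injective (congrFun h3 e)

/-- de Rham half -/
theorem drIndep_of_lie [IsAlgClosed k] {H : RealSys k ι}
    (hpol : ∀ σ, ∃ S : Matrix ι ι ℚ, Polarizes (H.hodge σ) S)
    (h : ∀ (σ τ : k →+* ℂ) (α β : ℂ →+* ℂ), α.comp σ = β.comp τ → ∀ Y ∈ mtLieC (H.hodge τ),
      cjL (cmpD H σ τ α β)⁻¹ Y ∈ mtLieC (H.hodge σ)) : DRIndep H := by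
  choose S hS using hpol
  choose π hπ using fun σ => exists_projQ (hS σ)
  rcases isEmpty_or_nonempty (k →+* ℂ) with hk | ⟨⟨σ₀⟩⟩
  · exact ⟨⊤, fun σ => (hk.false σ).elim⟩
  have key : ∀ (σ τ : k →+* ℂ) (α β : ℂ →+* ℂ), α.comp σ = β.comp τ → ∀ e,
      α (act (H.per σ) (ratT ℂ (π σ)) e) = β (act (H.per τ) (ratT ℂ (π τ)) e) := by
    intro σ τ α β hαβ e
    have h1 : act (cmpD H σ τ α β) (ratT ℂ (π σ)) = ratT ℂ (π τ) := by
      refine act_proj' (hπ σ) (hπ τ) (h σ τ α β hαβ) ?_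
      intro Y hY
      have h2 := h τ σ β α hαβ.symm Y hY
      rwa [cmpD_inv] at h2
    rw [cmpD, act_mul] at h1
    have h2 : act (map α (H.per σ)) (ratT ℂ (π σ)) = act (map β (H.per τ)) (ratT ℂ (π τ)) := by
      rw [← h1, act_act_inv]
    have h3 : (fun e => α (act (H.per σ) (ratT ℂ (π σ)) e)) =
        fun e => β (act (H.per τ) (ratT ℂ (π τ)) e) := by
      rw [map_act, map_act, ratT_map, ratT_map]
      exact h2
    exact congrFun h3 e
  have hD : ∀ e, ∃ x : k, act (H.per σ₀) (ratT ℂ (π σ₀)) e = σ₀ x := by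
    intro e
    refine stable_algClosed σ₀ {act (H.per σ₀) (ratT ℂ (π σ₀)) e} (Set.finite_singleton _) ?_ _ rfl
    rintro a b hab _ ⟨_, rfl, rfl⟩
    exact ⟨_, rfl, (key σ₀ σ₀ a b hab e).symm⟩
  choose D hD using hD
  refine dr_of_proj hπ (D := D) ?_
  intro τ
  obtain ⟨α, β, hαβ⟩ := amalg σ₀ τ Cardinal.mk_complex.le
  funext e
  apply β.injective
  rw [← key σ₀ τ α β hαβ e, hD e]
  exact congrArg (fun φ : k →+* ℂ => φ (D e)) hαβ

end Pool.Agent.Work.MP_0da4e0_ag.Lin
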